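import Pool.Agent.N869.GK.StmM
import Pool.Agent.N344.GK.MOMA

/-!
# Project GK, part M-MOMAM (helper391): the joint moments from the parts, several curves

Port of `Pool.Agent.N344.GK.MOMA` (helper344) to data for every copy.
-/

set_option autoImplicit false
set_option linter.unusedVariables false
set_option linter.unusedSectionVars false

open scoped Classical

namespace Pool.Agent.N391.GK

open Finset
open Pool.Agent.N869.QT.L (prs ext Lc Fam)
open Pool.Agent.N869.GK hiding Ex XW One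
open Pool.Agent.N869.GK.M
open Pool.Agent.N344.GK (sum_pi_sum mem_TT_inl mem_TT_inr card_TT sum_Aq_le prod_Aq_le sum_copies
  sum_mc ex ex_restrict restrict_ex ex_inj Qs_ex card_cp mem_rd exE ex_rd map_rd MS_rd supp_iff
  abs_sn_le PZ_zero PZ_sub hyp1 many1 prod_bound choose_K)

/-! ### The number of the stable sets -/

section count

variable {ι I C : Type} [Fintype ι] [Fintype C]

theorem mc_restrict (c : ι → I) (κ : ι → C) (a : I) (k : C) :
    mc (fun x : {x // c x = a} => κ x.1) k = mc2 c κ a k := by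
  unfold mc mc2 cp
  rw [← Finset.card_map (Function.Embedding.subtype (fun x => c x = a))]
  congr 1
  apply Finset.ext
  intro x
  rw [Finset.mem_map]
  constructor
  · rintro ⟨y, hy, rfl⟩
    exact Finset.mem_filter.2 ⟨Finset.mem_univ _, y.2, (Finset.mem_filter.1 hy).2⟩
  · intro hx
    have hx' := (Finset.mem_filter.1 hx).2
    exact ⟨⟨x, hx'.1⟩, Finset.mem_filter.2 ⟨@Finset.mem_univ _ (_) _, hx'.2⟩, rfl⟩

/-- the sets of decorations of the copies of `a` -/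
theorem count_gen (c : ι → I) (a : I) (P : Finset (Dc {x // c x = a}) → Prop) :
    (univ.filter fun Z : Finset (Dc ι) => MS (cp c a) Z ∧ P (rd c a Z)).card =
      (univ.filter fun Z : Finset (Dc {x // c x = a}) => MS univ Z ∧ P Z).card := by
  have hrdex : ∀ Z' : Finset (Dc {x // c x = a}), rd c a (Z'.map (exE c a)) = Z' := by
    intro Z'
    apply Finset.ext
    intro η
    rw [mem_rd]
    constructor
    · rintro ⟨ζ, hζ, rfl⟩
      rw [Finset.mem_map] at hζ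
      obtain ⟨η', hη', rfl⟩ := hζ
      have : (fun x : {x // c x = a} => (exE c a) η' x.1) = η' := ex_restrict c a η'
      rw [this]
      exact hη'
    · intro hη
      exact ⟨ex c a η, Finset.mem_map.2 ⟨η, hη, rfl⟩, ex_restrict c a η⟩
  refine Finset.card_nbij' (fun Z => rd c a Z) (fun Z' => Z'.map (exE c a)) ?_ ?_ ?_ ?_
  · intro Z hZ
    have hZ := (Finset.mem_filter.1 (Finset.mem_coe.1 hZ)).2
    exact Finset.mem_coe.2 (Finset.mem_filter.2
      ⟨@Finset.mem_univ _ (_) _, MS_rd c a Z hZ.1, hZ.2⟩)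
  · intro Z' hZ'
    have hZ' := (Finset.mem_filter.1 (Finset.mem_coe.1 hZ')).2
    obtain ⟨⟨hs, hc, hq⟩, hst⟩ := hZ'
    refine Finset.mem_coe.2 (Finset.mem_filter.2 ⟨@Finset.mem_univ _ (_) _, ⟨?_, ?_, ?_⟩, ?_⟩)
    · intro ζ hζ
      rw [Finset.mem_map] at hζ
      obtain ⟨ζ', -, rfl⟩ := hζ
      unfold Sp
      refine Finset.mem_filter.2 ⟨@Finset.mem_univ _ (_) _, fun x hx => ?_⟩
      show ex c a ζ' x = 0
      unfold ex
      rw [dif_neg]
      intro h
      apply hx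
      unfold cp
      rw [Finset.mem_filter]
      exact ⟨Finset.mem_univ _, h⟩
    · rw [Finset.card_map, hc, Finset.card_univ, card_cp]
    · intro ζ hζ ζ' hζ'
      rw [Finset.mem_map] at hζ hζ'
      obtain ⟨ξ, hξ, rfl⟩ := hζ
      obtain ⟨ξ', hξ', rfl⟩ := hζ'
      show Qs (cp c a) (ex c a ξ) (ex c a ξ') = 0
      rw [Qs_ex]
      exact hq ξ hξ ξ' hξ'
    · rw [hrdex]
      exact hst
  · intro Z hZ
    exact map_rd c a Z (Finset.mem_filter.1 (Finset.mem_coe.1 hZ)).2.1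
  · intro Z' _
    exact hrdex Z'

theorem count_a (hUNL : S_UNL) (hFAM : S_FAM) (hPRODM : S_PRODM) (hCOUNT : S_COUNT)
    (hCOUNTM : S_COUNTM) (c : ι → I) (κ : ι → C) (a : I) :
    ((univ.filter fun Z : Finset (Dc ι) => MS (cp c a) Z ∧
      StbM (fun x : {x // c x = a} => κ x.1) (rd c a Z)).card : ℝ) =
      ∏ k, (4 : ℝ) ^ mc2 c κ a k * mom (mc2 c κ a k) := by
  have h1 := hCOUNTM hUNL hFAM hPRODM hCOUNT {x // c x = a} C (fun x => κ x.1)
  have h2 : ∏ k, (4 : ℝ) ^ mc2 c κ a k * mom (mc2 c κ a k) =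
      ∏ k, (4 : ℝ) ^ mc (fun x : {x // c x = a} => κ x.1) k *
        mom (mc (fun x : {x // c x = a} => κ x.1) k) :=
    Finset.prod_congr rfl fun k _ => by rw [mc_restrict]
  rw [count_gen c a (StbM (fun x : {x // c x = a} => κ x.1)), h2, ← h1]
  exact congrArg (fun s : Finset (Finset (Dc {x // c x = a})) => (s.card : ℝ))
    (Finset.ext fun Z => by simp only [Finset.mem_filter, Finset.mem_univ, true_and])

end count

section main

variable {r : ℕ} {U J I Q ι : Type} [Fintype U] [Fintype J] [LinearOrder J] [Fintype ι]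

/-- the term of a decoration of the large primes -/
noncomputable def Fn (D₀ : Par r) (D : ι → Par r) (W : I → Finset U) (E : I → Finset Q) (g : J → Q) (c : ι → I)
    (lU : U → Gr r) (lJ : J → Gr r) (A : U → U → ZMod 2) (B : U → J → ZMod 2)
    (ζJ : J → Dc ι) : ℝ :=
  ∑ s : ι → Fin 2 → Gr r,
    ∑ ζU ∈ Fintype.piFinset (fun u => Sp (univ.filter fun x => u ∈ W (c x))),
      if XW D (Sum.elim lU lJ) (fun x => TT W E g (c x)) s (Sum.elim ζU ζJ) then
        sn (Ex D (Sum.elim lU lJ) (Nm D₀ lU lJ A B 0) (fun x => TT W E g (c x)) s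
          (Sum.elim ζU ζJ)) else 0

theorem step1 (D₀ : Par r) (D : ι → Par r) (W : I → Finset U) (E : I → Finset Q) (g : J → Q) (c : ι → I)
    (lU : U → Gr r) (lJ : J → Gr r) (A : U → U → ZMod 2) (B : U → J → ZMod 2) :
    ∑ s : ι → Fin 2 → Gr r,
      ∑ ζ ∈ univ.filter (fun ζ : U ⊕ J → Dc ι => (∀ i x, i ∉ TT W E g (c x) → ζ i x = 0) ∧
        XW D (Sum.elim lU lJ) (fun x => TT W E g (c x)) s ζ ∧
        ∀ k l, k ≠ l → Qs (Aq E c (g k) ∩ Aq E c (g l)) (ζ (.inr k)) (ζ (.inr l)) = 0),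
        sn (Ex D (Sum.elim lU lJ) (Nm D₀ lU lJ A B 0) (fun x => TT W E g (c x)) s ζ) =
    ∑ ζ ∈ univ.filter (fun ζ : J → Dc ι => (∀ k, ζ k ∈ Sp (Aq E c (g k))) ∧
      ∀ k l, k ≠ l → Qs (Aq E c (g k) ∩ Aq E c (g l)) (ζ k) (ζ l) = 0),
      Fn D₀ D W E g c lU lJ A B ζ := by
  have hR : (univ.filter (fun ζ : J → Dc ι => (∀ k, ζ k ∈ Sp (Aq E c (g k))) ∧
      ∀ k l, k ≠ l → Qs (Aq E c (g k) ∩ Aq E c (g l)) (ζ k) (ζ l) = 0)) =
      (Fintype.piFinset (fun k => Sp (Aq E c (g k)))).filter (fun ζ : J → Dc ι =>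
        ∀ k l, k ≠ l → Qs (Aq E c (g k) ∩ Aq E c (g l)) (ζ k) (ζ l) = 0) := by
    apply Finset.ext
    intro ζ
    rw [Finset.mem_filter, Finset.mem_filter, Fintype.mem_piFinset]
    simp only [Finset.mem_univ, true_and]
  rw [hR, Finset.sum_filter]
  unfold Fn
  have hR2 : ∀ ζJ : J → Dc ι,
      (if (∀ k l, k ≠ l → Qs (Aq E c (g k) ∩ Aq E c (g l)) (ζJ k) (ζJ l) = 0) then
        (∑ s : ι → Fin 2 → Gr r,
          ∑ ζU ∈ Fintype.piFinset (fun u => Sp (univ.filter fun x => u ∈ W (c x))),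
          if XW D (Sum.elim lU lJ) (fun x => TT W E g (c x)) s (Sum.elim ζU ζJ) then
          sn (Ex D (Sum.elim lU lJ) (Nm D₀ lU lJ A B 0) (fun x => TT W E g (c x)) s
          (Sum.elim ζU ζJ)) else 0) else 0) =
      ∑ s : ι → Fin 2 → Gr r,
          ∑ ζU ∈ Fintype.piFinset (fun u => Sp (univ.filter fun x => u ∈ W (c x))),
          if (XW D (Sum.elim lU lJ) (fun x => TT W E g (c x)) s (Sum.elim ζU ζJ) ∧
            ∀ k l, k ≠ l → Qs (Aq E c (g k) ∩ Aq E c (g l)) (ζJ k) (ζJ l) = 0) then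
          sn (Ex D (Sum.elim lU lJ) (Nm D₀ lU lJ A B 0) (fun x => TT W E g (c x)) s
          (Sum.elim ζU ζJ)) else 0 := by
    intro ζJ
    split_ifs with h
    · refine Finset.sum_congr rfl fun s _ => Finset.sum_congr rfl fun ζU _ => ?_
      by_cases hx : XW D (Sum.elim lU lJ) (fun x => TT W E g (c x)) s (Sum.elim ζU ζJ)
      · rw [if_pos hx, if_pos ⟨hx, fun k l hkl => h k l hkl⟩]
      · rw [if_neg hx, if_neg (fun hh => hx hh.1)]
    · symm
      refine Finset.sum_eq_zero fun s _ => Finset.sum_eq_zero fun ζU _ => ?_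
      rw [if_neg (fun hh => h hh.2)]
  rw [Finset.sum_congr rfl (fun ζJ _ => hR2 ζJ), Finset.sum_comm]
  refine Finset.sum_congr rfl fun s _ => ?_
  rw [Finset.sum_comm]
  have hL : (univ.filter (fun ζ : U ⊕ J → Dc ι => (∀ i x, i ∉ TT W E g (c x) → ζ i x = 0) ∧
        XW D (Sum.elim lU lJ) (fun x => TT W E g (c x)) s ζ ∧
        ∀ k l, k ≠ l → Qs (Aq E c (g k) ∩ Aq E c (g l)) (ζ (.inr k)) (ζ (.inr l)) = 0)) =
      (Fintype.piFinset (Sum.elim (fun u => Sp (univ.filter fun x => u ∈ W (c x)))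
        (fun k => Sp (Aq E c (g k))))).filter (fun ζ : U ⊕ J → Dc ι =>
        XW D (Sum.elim lU lJ) (fun x => TT W E g (c x)) s ζ ∧
        ∀ k l, k ≠ l → Qs (Aq E c (g k) ∩ Aq E c (g l)) (ζ (.inr k)) (ζ (.inr l)) = 0) := by
    apply Finset.ext
    intro ζ
    rw [Finset.mem_filter, Finset.mem_filter, ← supp_iff]
    simp only [Finset.mem_univ, true_and]
  rw [hL, Finset.sum_filter, sum_pi_sum]
  rfl

theorem Fn_le (D₀ : Par r) (D : ι → Par r) (W : I → Finset U) (E : I → Finset Q) (g : J → Q) (c : ι → I)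
    (lU : U → Gr r) (lJ : J → Gr r) (A : U → U → ZMod 2) (B : U → J → ZMod 2)
    (ζJ : J → Dc ι) : |Fn D₀ D W E g c lU lJ A B ζJ| ≤
      4 ^ (r * Fintype.card ι) * 16 ^ (Fintype.card ι * Fintype.card U) := by
  unfold Fn
  refine (Finset.abs_sum_le_sum_abs _ _).trans ?_
  have h1 : ∀ s : ι → Fin 2 → Gr r,
      |∑ ζU ∈ Fintype.piFinset (fun u => Sp (univ.filter fun x => u ∈ W (c x))),
        if XW D (Sum.elim lU lJ) (fun x => TT W E g (c x)) s (Sum.elim ζU ζJ) then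
          sn (Ex D (Sum.elim lU lJ) (Nm D₀ lU lJ A B 0) (fun x => TT W E g (c x)) s
            (Sum.elim ζU ζJ)) else 0| ≤ 16 ^ (Fintype.card ι * Fintype.card U) := by
    intro s
    refine (Finset.abs_sum_le_sum_abs _ _).trans ?_
    have h2 : ∀ ζU ∈ Fintype.piFinset (fun u => Sp (univ.filter fun x => u ∈ W (c x))),
        |(if XW D (Sum.elim lU lJ) (fun x => TT W E g (c x)) s (Sum.elim ζU ζJ) then
          sn (Ex D (Sum.elim lU lJ) (Nm D₀ lU lJ A B 0) (fun x => TT W E g (c x)) s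
            (Sum.elim ζU ζJ)) else 0)| ≤ (1 : ℝ) := by
      intro ζU _
      split_ifs
      · exact abs_sn_le _
      · simp
    refine (Finset.sum_le_card_nsmul _ _ _ h2).trans ?_
    rw [nsmul_eq_mul, mul_one]
    have h3 : (Fintype.piFinset (fun u : U =>
        (Sp (univ.filter fun x => u ∈ W (c x)) : Finset (Dc ι)))).card ≤
        16 ^ (Fintype.card ι * Fintype.card U) := by
      rw [Fintype.card_piFinset, pow_mul, ← Finset.card_univ (α := U), ← Finset.prod_const]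
      refine Finset.prod_le_prod' fun u _ => ?_
      have h4 := Finset.card_le_univ (Sp (univ.filter fun x => u ∈ W (c x)) : Finset (Dc ι))
      refine h4.trans (le_of_eq ?_)
      rw [Fintype.card_fun]
      congr 1
    exact_mod_cast h3
  refine (Finset.sum_le_card_nsmul _ _ _ (fun s _ => h1 s)).trans ?_
  rw [nsmul_eq_mul]
  refine mul_le_mul_of_nonneg_right (le_of_eq ?_) (by positivity)
  rw [Finset.card_univ, Fintype.card_fun, Fintype.card_fun, Fintype.card_fun, Fintype.card_fin,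
    Fintype.card_fin, ZMod.card]
  push_cast
  rw [← pow_mul, ← pow_mul, show r * (2 * Fintype.card ι) = 2 * (r * Fintype.card ι) by ring,
    pow_mul]
  norm_num

/-! ### The main term -/

variable [Fintype I] [Fintype Q]

theorem step3 (hUNL : S_UNL) (hSMALL : S_SMALLM) (hFACT : S_FACTM) (D₀ : Par r) (D : ι → Par r) (K : ℕ)
    (W : I → Finset U) (E : I → Finset Q) (g : J → Q) (c : ι → I)
    (lU : U → Gr r) (lJ : J → Gr r) (A : U → U → ZMod 2) (B : U → J → ZMod 2) (hF : Fam E)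
    (hG : HypG D₀ K W E g lU lJ A B) (Y : I → Finset (Dc ι)) (hY : ∀ a, MS (cp c a) (Y a)) :
    ∑ ζ ∈ Fintype.piFinset (fun k => PZ c Y fun a => g k ∈ E a),
        Fn D₀ D W E g c lU lJ A B ζ =
      ∏ a, One (fun x : {x // c x = a} => D x.1) (fun i : {i // i ∈ TT W E g a} => (Sum.elim lU lJ : U ⊕ J → Gr r) i.1)
        (fun i j => Nm D₀ lU lJ A B 0 i.1 j.1) (rd c a (Y a)) := by
  have hf := (hFACT r (U ⊕ J) I ι D (TT W E g) c (Sum.elim lU lJ) (Nm D₀ lU lJ A B 0) Y hY).1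
  rw [← hf]
  unfold Fn
  rw [Finset.sum_comm]
  refine Finset.sum_congr rfl fun s _ => ?_
  rw [Finset.sum_comm]
  have hsub : Fintype.piFinset (fun u : U => PZ c Y fun a => u ∈ W a) ⊆
      Fintype.piFinset (fun u : U => (Sp (univ.filter fun x => u ∈ W (c x)) : Finset (Dc ι))) :=
    Fintype.piFinset_subset _ _ fun u => PZ_sub W c Y u
  rw [← Finset.sum_subset hsub]
  · rw [← sum_pi_sum (fun u : U => PZ c Y fun a => u ∈ W a)
      (fun k : J => PZ c Y fun a => g k ∈ E a)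
      (fun ζ => if XW D (Sum.elim lU lJ) (fun x => TT W E g (c x)) s ζ then
        sn (Ex D (Sum.elim lU lJ) (Nm D₀ lU lJ A B 0) (fun x => TT W E g (c x)) s ζ) else 0),
      Finset.sum_filter]
    have e : (Sum.elim (fun u : U => PZ c Y fun a => u ∈ W a)
        (fun k : J => PZ c Y fun a => g k ∈ E a)) =
        fun i : U ⊕ J => PZ c Y fun a => i ∈ TT W E g a := by
      funext i
      rcases i with u | k
      · show (PZ c Y fun a => u ∈ W a) = _
        congr 1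
        funext a
        exact propext (mem_TT_inl W E g a u).symm
      · show (PZ c Y fun a => g k ∈ E a) = _
        congr 1
        funext a
        exact propext (mem_TT_inr W E g a k).symm
    rw [e]
    refine Finset.sum_congr ?_ fun _ _ => rfl
    refine Finset.ext fun ζ => ?_
    exact (@Fintype.mem_piFinset _ (_) (_) _ _ _).trans (@Fintype.mem_piFinset _ (_) (_) _ _ _).symm
  · intro ζU hζ hζ'
    rw [Fintype.mem_piFinset] at hζ
    rw [Fintype.mem_piFinset] at hζ'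
    push Not at hζ'
    have h1 := hSMALL hUNL r D₀ K U J I Q ι D W E g c lU lJ A B hF hG Y hY s ζU hζ hζ'
    rw [Finset.sum_filter] at h1
    exact h1

theorem step3' (hUNL : S_UNL) (hSMALL : S_SMALLM) (hFACT : S_FACTM) (D₀ : Par r) (D : ι → Par r) (K : ℕ)
    (W : I → Finset U) (E : I → Finset Q) (g : J → Q) (c : ι → I)
    (lU : U → Gr r) (lJ : J → Gr r) (A : U → U → ZMod 2) (B : U → J → ZMod 2) (hF : Fam E)
    (hG : HypG D₀ K W E g lU lJ A B) (Y : I → Finset (Dc ι)) (hY : ∀ a, MS (cp c a) (Y a)) :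
    ∑ ζ ∈ @Fintype.piFinset J (fun a b => Classical.propDecidable (a = b)) _ _
        (fun k => PZ c Y fun a => g k ∈ E a), Fn D₀ D W E g c lU lJ A B ζ =
      ∏ a, One (fun x : {x // c x = a} => D x.1) (fun i : {i // i ∈ TT W E g a} => (Sum.elim lU lJ : U ⊕ J → Gr r) i.1)
        (fun i j => Nm D₀ lU lJ A B 0 i.1 j.1) (rd c a (Y a)) := by
  rw [← step3 hUNL hSMALL hFACT D₀ D K W E g c lU lJ A B hF hG Y hY]
  refine Finset.sum_congr ?_ fun _ _ => rfl
  refine Finset.ext fun ζ => ?_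
  exact (@Fintype.mem_piFinset _ (_) (_) _ _ _).trans (@Fintype.mem_piFinset _ (_) (_) _ _ _).symm

end main

theorem t_MOMAM : S_MOMAM := by
  intro hUNL hFAM hSPLIT hEXP hSMALL hFACT hPAIR hVAL hCOUNTM hCOUNT hAUTO hTOR hKC hVAL0 hPRODM
    hGENM
  intro r CC _ D₀ D hD ι I Q _ _ _ E c κ hF ε hε
  obtain ⟨C, hC, hS⟩ := hSPLIT hUNL hFAM ι I Q E c hF
  set 𝒴 : Finset (I → Finset (Dc ι)) := univ.filter (fun Y : I → Finset (Dc ι) =>
    ∀ a, MS (cp c a) (Y a)) with h𝒴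
  obtain ⟨K', hK', hch⟩ := choose_K (Fintype.card ι) r C (𝒴.card : ℝ) ε hC (Nat.cast_nonneg _) hε
  refine ⟨2 * K', ?_⟩
  intro U J _ _ _ W g lU lJ A B hG
  set n := Fintype.card ι with hn
  set Λ := K' * (Fintype.card U + Nat.log 2 (Fintype.card J) + 1) with hΛ
  set σ := ∑ x, (TT W E g (c x)).card with hσ
  set X : ℝ := ((univ.filter fun y : (prs J → ZMod 2) × (ι → (Fin 2 → Gr r) × (U ⊕ J → V)) =>
      ∀ x, Sol (D (κ x)) (Sum.elim lU lJ) (Nm D₀ lU lJ A B y.1) (TT W E g (c x)) (y.2 x)).card : ℝ)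
    with hX
  have hexp := hEXP r D₀ U J I Q ι (fun x => D (κ x)) W E g c lU lJ A B
  rw [step1 D₀ (fun x => D (κ x)) W E g c lU lJ A B, ← hX, ← hσ] at hexp
  set S := ∑ ζ ∈ univ.filter (fun ζ : J → Dc ι => (∀ k, ζ k ∈ Sp (Aq E c (g k))) ∧
      ∀ k l, k ≠ l → Qs (Aq E c (g k) ∩ Aq E c (g l)) (ζ k) (ζ l) = 0),
      Fn D₀ (fun x => D (κ x)) W E g c lU lJ A B ζ with hSdef
  have hsplit := hS J g (Fn D₀ (fun x => D (κ x)) W E g c lU lJ A B)
    (4 ^ (r * n) * 16 ^ (n * Fintype.card U)) (2 * Λ) (Fn_le D₀ (fun x => D (κ x)) W E g c lU lJ A B)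
    (fun q => by
      have h1 := hG.many q 0
      have h2 : 2 * Λ = 2 * K' * (Fintype.card U + Nat.log 2 (Fintype.card J) + 1) := by
        rw [hΛ]; ring
      rw [h2]
      refine h1.trans (Finset.card_le_card ?_)
      intro k hk
      exact Finset.mem_filter.2 ⟨Finset.mem_univ _, (Finset.mem_filter.1 hk).2.1⟩)
  -- the main term
  set PO : (I → Finset (Dc ι)) → ℝ := fun Y => ∏ a,
      One (fun x : {x // c x = a} => D (κ x.1)) (fun i : {i // i ∈ TT W E g a} => (Sum.elim lU lJ : U ⊕ J → Gr r) i.1)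
        (fun i j => Nm D₀ lU lJ A B 0 i.1 j.1) (rd c a (Y a)) with hPO
  have hsplit2 : |S - ∑ Y ∈ 𝒴, PO Y| ≤ C * (4 ^ (r * n) * 16 ^ (n * Fintype.card U)) *
      (1 - (1 / 4 : ℝ) ^ n) ^ (2 * Λ) * ∏ k, (4 : ℝ) ^ (Aq E c (g k)).card := by
    have key : ∀ A B R : ℝ, |A - B| ≤ R → A = S → B = ∑ Y ∈ 𝒴, PO Y →
        |S - ∑ Y ∈ 𝒴, PO Y| ≤ R := by
      intro A B R h h1 h2
      rw [← h1, ← h2]
      exact h
    refine key _ _ _ hsplit ?_ ?_
    · rw [hSdef]
      refine Finset.sum_congr ?_ (fun _ _ => rfl)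
      apply Finset.ext
      intro ζ
      constructor
      · intro h
        have h1 := (@Finset.mem_filter _ _ (_) _ _).1 h
        exact (@Finset.mem_filter _ _ (_) _ _).2 ⟨@Finset.mem_univ _ (_) _, h1.2⟩
      · intro h
        have h1 := (@Finset.mem_filter _ _ (_) _ _).1 h
        exact (@Finset.mem_filter _ _ (_) _ _).2 ⟨@Finset.mem_univ _ (_) _, h1.2⟩
    · refine Finset.sum_congr rfl (fun Y hY => ?_)
      refine Eq.trans ?_ (step3' hUNL hSMALL hFACT D₀ (fun x => D (κ x)) (2 * K') W E g c lU lJ A B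
        hF hG Y (Finset.mem_filter.1 hY).2)
      congr!
  have hσ2 : ∑ a, mc c a * (TT W E g a).card = σ :=
    (sum_copies c (fun a => (TT W E g a).card)).symm
  have h4σ : (0:ℝ) < 4 ^ σ := by positivity
  have hYb : ∀ Y ∈ 𝒴, |PO Y - (if ∀ a, StbM (fun x : {x // c x = a} => κ x.1) (rd c a (Y a)) then (4 : ℝ) ^ σ else 0)| ≤
      4 ^ (r * n) * (1 / 2) ^ Λ * 4 ^ σ := by
    intro Y hY
    have hY' := (Finset.mem_filter.1 hY).2
    have hMS := (hFACT r (U ⊕ J) I ι (fun x => D (κ x)) (TT W E g) c (Sum.elim lU lJ) (Nm D₀ lU lJ A B 0) Y hY').2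
    have hb := prod_bound (fun a => One (fun x : {x // c x = a} => D (κ x.1)) (fun i : {i // i ∈ TT W E g a} =>
        (Sum.elim lU lJ : U ⊕ J → Gr r) i.1) (fun i j => Nm D₀ lU lJ A B 0 i.1 j.1) (rd c a (Y a)))
      (fun a => StbM (fun x : {x // c x = a} => κ x.1) (rd c a (Y a))) (fun a => mc c a) (fun a => (TT W E g a).card) r n Λ
      (sum_mc c) ?_ ?_
    · rw [hσ2] at hb
      exact hb
    · intro a ha
      have h1 := hVAL hUNL hFAM hAUTO hTOR hKC hVAL0 hFACT hPRODM r CC D₀ D hD {i // i ∈ TT W E g a} {x // c x = a}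
        (fun x => κ x.1) (fun i => (Sum.elim lU lJ : U ⊕ J → Gr r) i.1) (fun i j => Nm D₀ lU lJ A B 0 i.1 j.1)
        (hyp1 D₀ (2 * K') (by omega) W E g lU lJ A B hF hG a) (rd c a (Y a)) (hMS a) ha
      rw [← card_cp c a, Fintype.card_coe] at h1
      exact h1
    · intro a ha
      have h1 := hPAIR hUNL hGENM r CC D₀ D hD {i // i ∈ TT W E g a} {x // c x = a}
        (fun x => κ x.1) (fun i => (Sum.elim lU lJ : U ⊕ J → Gr r) i.1) (fun i j => Nm D₀ lU lJ A B 0 i.1 j.1) Λ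
        (hyp1 D₀ (2 * K') (by omega) W E g lU lJ A B hF hG a)
        (fun π => by
          have h2 := many1 D₀ (2 * K') W E g lU lJ A B hF hG a π
          rw [mul_assoc] at h2
          exact h2) (rd c a (Y a)) (hMS a) ha
      rw [← card_cp c a, Fintype.card_coe] at h1
      exact h1
  -- the count
  have hcount : ((𝒴.filter fun Y => ∀ a, StbM (fun x : {x // c x = a} => κ x.1) (rd c a (Y a))).card : ℝ) =
      ∏ a, ∏ k, (4 : ℝ) ^ mc2 c κ a k * mom (mc2 c κ a k) := by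
    have e1 : (𝒴.filter fun Y => ∀ a, StbM (fun x : {x // c x = a} => κ x.1) (rd c a (Y a))) =
        Fintype.piFinset (fun a => univ.filter fun Z : Finset (Dc ι) =>
          MS (cp c a) Z ∧ StbM (fun x : {x // c x = a} => κ x.1) (rd c a Z)) := by
      apply Finset.ext
      intro Y
      rw [h𝒴, Finset.mem_filter, Finset.mem_filter, Fintype.mem_piFinset]
      constructor
      · rintro ⟨⟨-, h1⟩, h2⟩ a
        exact Finset.mem_filter.2 ⟨Finset.mem_univ _, h1 a, h2 a⟩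
      · intro h
        exact ⟨⟨Finset.mem_univ _, fun a => (Finset.mem_filter.1 (h a)).2.1⟩,
          fun a => (Finset.mem_filter.1 (h a)).2.2⟩
    rw [e1, Fintype.card_piFinset]
    push_cast
    exact Finset.prod_congr rfl fun a _ => count_a hUNL hFAM hPRODM hCOUNT hCOUNTM c κ a
  have hsum : |∑ Y ∈ 𝒴, PO Y - (∏ a, ∏ k, (4 : ℝ) ^ mc2 c κ a k * mom (mc2 c κ a k)) * 4 ^ σ| ≤
      (𝒴.card : ℝ) * (4 ^ (r * n) * (1 / 2) ^ Λ * 4 ^ σ) := by
    rw [← hcount]
    have e1 : ((𝒴.filter fun Y => ∀ a, StbM (fun x : {x // c x = a} => κ x.1) (rd c a (Y a))).card : ℝ) * 4 ^ σ =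
        ∑ Y ∈ 𝒴, (if ∀ a, StbM (fun x : {x // c x = a} => κ x.1) (rd c a (Y a)) then (4 : ℝ) ^ σ else 0) := by
      rw [← Finset.sum_filter, Finset.sum_const, nsmul_eq_mul]
    rw [e1, ← Finset.sum_sub_distrib]
    refine (Finset.abs_sum_le_sum_abs _ _).trans ?_
    refine (Finset.sum_le_card_nsmul _ _ _ hYb).trans (le_of_eq ?_)
    rw [nsmul_eq_mul]
  have hprod := prod_Aq_le W E g c
  have hM0 : 0 ≤ C * (4 ^ (r * n) * 16 ^ (n * Fintype.card U)) *
      (1 - (1 / 4 : ℝ) ^ n) ^ (2 * Λ) := by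
    have h1 : (1 / 4 : ℝ) ^ n ≤ 1 := pow_le_one₀ (by norm_num) (by norm_num)
    have h2 : 0 ≤ 1 - (1 / 4 : ℝ) ^ n := by linarith
    positivity
  have hsplit3 : |S - ∑ Y ∈ 𝒴, PO Y| ≤ C * (4 ^ (r * n) * 16 ^ (n * Fintype.card U)) *
      (1 - (1 / 4 : ℝ) ^ n) ^ (2 * Λ) * 4 ^ σ :=
    hsplit2.trans (mul_le_mul_of_nonneg_left hprod hM0)
  have hfinal := hch (Fintype.card U) Λ (by rw [hΛ]; exact Nat.mul_le_mul_left _ (by omega))
  have hdiff : |S - (∏ a, ∏ k, (4 : ℝ) ^ mc2 c κ a k * mom (mc2 c κ a k)) * 4 ^ σ| ≤ ε * 4 ^ σ := by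
    have h1 := abs_sub_le S (∑ Y ∈ 𝒴, PO Y) ((∏ a, ∏ k, (4 : ℝ) ^ mc2 c κ a k * mom (mc2 c κ a k)) * 4 ^ σ)
    refine h1.trans ((add_le_add hsplit3 hsum).trans ?_)
    calc _ = (C * (4 ^ (r * n) * 16 ^ (n * Fintype.card U)) * (1 - (1 / 4 : ℝ) ^ n) ^ (2 * Λ) +
          (𝒴.card : ℝ) * (4 ^ (r * n) * (1 / 2) ^ Λ)) * 4 ^ σ := by ring
      _ ≤ ε * 4 ^ σ := mul_le_mul_of_nonneg_right hfinal h4σ.le
  have h2p : (0:ℝ) < 2 ^ (prs J).card := by positivity
  have e2 : X / 2 ^ (prs J).card - ∏ a, ∏ k, (4 : ℝ) ^ mc2 c κ a k * mom (mc2 c κ a k) =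
      (S - (∏ a, ∏ k, (4 : ℝ) ^ mc2 c κ a k * mom (mc2 c κ a k)) * 4 ^ σ) / 4 ^ σ := by
    rw [eq_div_iff h4σ.ne', sub_mul, div_mul_eq_mul_div, hexp, mul_div_cancel_left₀ _ h2p.ne']
  rw [e2, abs_div, abs_of_pos h4σ, div_le_iff₀ h4σ]
  exact hdiff

end Pool.Agent.N391.GK
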